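import Pool.Agent.Lib.MP_d4f14f_co.Cov

/-!
# MP_d4f14f_co: the balanced case `|R| = 3 |B|`, by an assignment of minimum total length
-/

noncomputable section

open scoped Classical

namespace Pool.Agent.MP_d4f14f_co

variable {R B R' B' : Finset Pt} {T T' : Finset (Pt × Finset Pt)} {k k' : ℕ}

/-- a common point of `[b, z]` and `[b', z]`-type segments forces collinearity -/
theorem eq_of_two_segments {p b b' z : Pt} (hcol : ¬ Collinear ℝ ({p, b, b'} : Set Pt))
    (h1 : z ∈ segment ℝ p b) (h2 : z ∈ segment ℝ p b') : z = p := by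
  by_contra hz
  apply hcol
  obtain ⟨s, hs, hs1⟩ := (segment_eq_image ℝ p b ▸ h1 : z ∈ _)
  obtain ⟨t, ht, ht1⟩ := (segment_eq_image ℝ p b' ▸ h2 : z ∈ _)
  have hs0 : s ≠ 0 := by
    rintro rfl
    apply hz
    rw [← hs1]
    simp
  have ht0 : t ≠ 0 := by
    rintro rfl
    apply hz
    rw [← ht1]
    simp
  rw [collinear_iff_of_mem (p₀ := p) (by simp)]
  refine ⟨z - p, ?_⟩
  intro x hx
  simp only [Set.mem_insert_iff, Set.mem_singleton_iff] at hx
  rcases hx with rfl | rfl | rfl
  · exact ⟨0, by simp⟩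
  · refine ⟨s⁻¹, ?_⟩
    have h3 : z - p = s • (x - p) := by
      rw [← hs1]
      module
    rw [h3, smul_smul, inv_mul_cancel₀ hs0, one_smul, vadd_eq_add, sub_add_cancel]
  · refine ⟨t⁻¹, ?_⟩
    have h3 : z - p = t • (x - p) := by
      rw [← ht1]
      module
    rw [h3, smul_smul, inv_mul_cancel₀ ht0, one_smul, vadd_eq_add, sub_add_cancel]

theorem dist_seg {x y z : Pt} (h : z ∈ segment ℝ x y) : dist x z + dist z y = dist x y :=
  dist_add_dist_of_mem_segment h

theorem mem_seg_of_dist {x y z : Pt} (h : dist x z + dist z y = dist x y) :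
    z ∈ segment ℝ x y := by
  rw [mem_segment_iff_wbtw]
  exact dist_add_dist_eq_iff.1 h

/-- the swap of the centres of two crossing legs -/
theorem legs_disjoint {S : Finset Pt} (hg : GenPos S) {p p' b b' : Pt} (hp : p ∈ S) (hp' : p' ∈ S)
    (hb : b ∈ S) (hb' : b' ∈ S) (hpb : p ≠ b) (hpb' : p ≠ b') (hpb'' : p' ≠ b) (hpb''' : p' ≠ b')
    (hpp : p ≠ p') (hbb : b ≠ b')
    (hmin : dist p b + dist p' b' ≤ dist p b' + dist p' b) :
    Disjoint (segment ℝ b p) (segment ℝ b' p') := by
  rw [Set.disjoint_left]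
  intro z hz hz'
  rw [segment_symm] at hz hz'
  have e1 := dist_seg hz
  have e2 := dist_seg hz'
  have t1 : dist p b' ≤ dist p z + dist z b' := dist_triangle _ _ _
  have t2 : dist p' b ≤ dist p' z + dist z b := dist_triangle _ _ _
  have e3 : dist p z + dist z b' = dist p b' := by linarith
  have e4 : dist p' z + dist z b = dist p' b := by linarith
  have h1 := eq_of_two_segments (hg p hp b hb b' hb' hpb hpb' hbb) hz (mem_seg_of_dist e3)
  have h2 := eq_of_two_segments (hg p' hp' b' hb' b hb hpb''' hpb'' hbb.symm) hz'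
    (mem_seg_of_dist e4)
  exact hpp (h1.symm.trans h2)

/-- the balanced case -/
theorem perfect (hd : Disjoint R B) (hg : GenPos (R ∪ B)) (hc : R.card = 3 * B.card) :
    Wst R B 0 := by
  have hcard : Fintype.card R = Fintype.card (B × Fin 3) := by
    rw [Fintype.card_prod, Fintype.card_coe, Fintype.card_coe, Fintype.card_fin, hc, mul_comm]
  have : Nonempty (R ≃ B × Fin 3) := ⟨Fintype.equivOfCardEq hcard⟩
  obtain ⟨e, he⟩ := Finite.exists_min
    (fun e : R ≃ B × Fin 3 => ∑ p : R, dist (p : Pt) ((e p).1 : Pt))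
  -- exchange property
  have hex : ∀ p p' : R, (e p).1 ≠ (e p').1 →
      dist (p : Pt) ((e p).1 : Pt) + dist (p' : Pt) ((e p').1 : Pt) ≤
      dist (p : Pt) ((e p').1 : Pt) + dist (p' : Pt) ((e p).1 : Pt) := by
    intro p p' hpp
    have hne : p ≠ p' := by
      rintro rfl
      exact hpp rfl
    have h1 := he ((Equiv.swap p p').trans e)
    have hp' : p' ∈ (Finset.univ : Finset R).erase p :=
      Finset.mem_erase.2 ⟨hne.symm, Finset.mem_univ _⟩
    have hs : ∀ f : R → ℝ, ∑ q : R, f q
        = f p + (f p' + ∑ q ∈ ((Finset.univ : Finset R).erase p).erase p', f q) := by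
      intro f
      rw [Finset.add_sum_erase _ f hp', Finset.add_sum_erase _ f (Finset.mem_univ p)]
    rw [hs (fun q : R => dist (q : Pt) ((e q).1 : Pt)),
      hs (fun q : R => dist (q : Pt) ((((Equiv.swap p p').trans e) q).1 : Pt))] at h1
    have h2 : ∑ q ∈ ((Finset.univ : Finset R).erase p).erase p',
        dist (q : Pt) ((((Equiv.swap p p').trans e) q).1 : Pt)
        = ∑ q ∈ ((Finset.univ : Finset R).erase p).erase p', dist (q : Pt) ((e q).1 : Pt) := by
      refine Finset.sum_congr rfl fun q hq => ?_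
      rw [Finset.mem_erase, Finset.mem_erase] at hq
      rw [Equiv.trans_apply, Equiv.swap_apply_of_ne_of_ne hq.2.1 hq.1]
    rw [h2, Equiv.trans_apply, Equiv.trans_apply, Equiv.swap_apply_left,
      Equiv.swap_apply_right] at h1
    linarith
  -- the stars
  let leaves : B → Finset Pt := fun b =>
    ((Finset.univ : Finset R).filter fun p => (e p).1 = b).map (Function.Embedding.subtype _)
  have hleaf : ∀ b : B, ∀ q : Pt, q ∈ leaves b → ∃ p : R, (p : Pt) = q ∧ (e p).1 = b := by
    intro b q hq
    simp only [leaves, Finset.mem_map, Finset.mem_filter, Finset.mem_univ, true_and,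
      Function.Embedding.coe_subtype] at hq
    obtain ⟨p, hp, rfl⟩ := hq
    exact ⟨p, rfl, hp⟩
  have hcl : ∀ b : B, (leaves b).card = 3 := by
    intro b
    simp only [leaves, Finset.card_map]
    have h1 : ((Finset.univ : Finset R).filter fun p => (e p).1 = b)
        = (Finset.univ : Finset (Fin 3)).map
          ⟨fun i => e.symm (b, i), fun i j hij => by
            have := e.symm.injective hij
            exact (Prod.mk.injEq _ _ _ _ ▸ this).2⟩ := by
      ext p
      simp only [Finset.mem_filter, Finset.mem_univ, true_and, Finset.mem_map,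
        Function.Embedding.coeFn_mk]
      constructor
      · intro hp
        refine ⟨(e p).2, ?_⟩
        rw [Equiv.symm_apply_eq, ← hp]
      · rintro ⟨i, rfl⟩
        rw [Equiv.apply_symm_apply]
    rw [h1, Finset.card_map, Finset.card_univ, Fintype.card_fin]
  let st : B → Pt × Finset Pt := fun b => ((b : Pt), leaves b)
  have hst : Function.Injective st := by
    intro b b' hbb
    exact Subtype.ext (Prod.mk.inj hbb).1
  have hRS : ∀ p : R, (p : Pt) ∈ R ∪ B := fun p => Finset.mem_union_left _ p.2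
  have hBS : ∀ b : B, (b : Pt) ∈ R ∪ B := fun b => Finset.mem_union_right _ b.2
  have hRB : ∀ (p : R) (b : B), (p : Pt) ≠ (b : Pt) := fun p b h =>
    Finset.disjoint_left.1 hd p.2 (h ▸ b.2)
  refine ⟨(Finset.univ : Finset B).map ⟨st, hst⟩, ⟨?_, ?_, ?_⟩, ?_⟩
  · intro s hs
    rw [Finset.mem_map] at hs
    obtain ⟨b, -, rfl⟩ := hs
    refine ⟨hcl b, Or.inr ⟨b.2, ?_⟩⟩
    intro q hq
    obtain ⟨p, rfl, -⟩ := hleaf b q hq
    exact p.2
  · intro s hs t ht hne
    rw [Finset.mem_map] at hs ht
    obtain ⟨b, -, rfl⟩ := hs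
    obtain ⟨b', -, rfl⟩ := ht
    have hbb : b ≠ b' := by
      rintro rfl
      exact hne rfl
    rw [Finset.disjoint_left]
    intro q hq hq'
    simp only [Function.Embedding.coeFn_mk, st, Finset.mem_insert] at hq hq'
    rcases hq with rfl | hq
    · rcases hq' with h | hq'
      · exact hbb (Subtype.ext h)
      · obtain ⟨p, hp, -⟩ := hleaf b' _ hq'
        exact hRB p b hp
    · obtain ⟨p, rfl, hp⟩ := hleaf b _ hq
      rcases hq' with h | hq'
      · exact hRB p b' h
      · obtain ⟨p', hp1, hp2⟩ := hleaf b' _ hq'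
        have := Subtype.ext hp1
        rw [this] at hp2
        exact hbb (hp.symm.trans hp2)
  · intro s hs t ht hne q hq q' hq'
    rw [Finset.mem_map] at hs ht
    obtain ⟨b, -, rfl⟩ := hs
    obtain ⟨b', -, rfl⟩ := ht
    have hbb : b ≠ b' := by
      rintro rfl
      exact hne rfl
    simp only [Function.Embedding.coeFn_mk, st] at hq hq' ⊢
    obtain ⟨p, rfl, hp⟩ := hleaf b _ hq
    obtain ⟨p', rfl, hp'⟩ := hleaf b' _ hq'
    have hpp : (p : Pt) ≠ (p' : Pt) := by
      intro h
      have := Subtype.ext h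
      rw [this] at hp
      exact hbb (hp.symm.trans hp')
    have h1 := hex p p' (by rw [hp, hp']; exact hbb)
    rw [hp, hp'] at h1
    exact legs_disjoint hg (hRS p) (hRS p') (hBS b) (hBS b') (hRB p b) (hRB p b') (hRB p' b)
      (hRB p' b') hpp (fun h => hbb (Subtype.ext h)) h1
  · rw [Finset.card_map, Finset.card_univ, Fintype.card_coe]
    omega

/-- at least three times as many red points -/
theorem base_red (hd : Disjoint R B) (hg : GenPos (R ∪ B)) (hc : 3 * B.card ≤ R.card) :
    Wst R B (R.card - 3 * B.card) := by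
  obtain ⟨R', hR', hR'c⟩ := Finset.exists_subset_card_eq hc
  have h1 := perfect (R := R') (B := B) (Finset.disjoint_of_subset_left hR' hd)
    (hg.mono (Finset.union_subset_union_left hR')) hR'c
  exact h1.mono hR' subset_rfl (by omega)

/-- at least three times as many blue points -/
theorem base_blue (hd : Disjoint R B) (hg : GenPos (R ∪ B)) (hc : 3 * R.card ≤ B.card) :
    Wst R B (B.card - 3 * R.card) :=
  (base_red hd.symm (by rw [Finset.union_comm]; exact hg) hc).swap

end Pool.Agent.MP_d4f14f_co
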