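import Pool.Agent.Lib.MP_d4f14f_co.Defs

/-!
# MP_d4f14f_co: algebra of covers
-/

noncomputable section

open scoped Classical

namespace Pool.Agent.MP_d4f14f_co

variable {R B R' B' : Finset Pt} {T T' : Finset (Pt × Finset Pt)} {k k' : ℕ}

theorem GenPos.mono {S S' : Finset Pt} (h : GenPos S) (hS : S' ⊆ S) : GenPos S' :=
  fun p hp q hq t ht => h p (hS hp) q (hS hq) t (hS ht)

theorem IsStar.swap {s : Pt × Finset Pt} (h : IsStar R B s) : IsStar B R s :=
  ⟨h.1, h.2.symm⟩

theorem IsStar.mono {s : Pt × Finset Pt} (h : IsStar R B s) (hR : R ⊆ R') (hB : B ⊆ B') :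
    IsStar R' B' s := by
  refine ⟨h.1, ?_⟩
  rcases h.2 with h2 | h2
  · exact Or.inl ⟨hR h2.1, h2.2.trans hB⟩
  · exact Or.inr ⟨hB h2.1, h2.2.trans hR⟩

theorem IsCover.swap (h : IsCover R B T) : IsCover B R T :=
  ⟨fun s hs => (h.star s hs).swap, h.disj, h.cross⟩

theorem IsCover.mono (h : IsCover R B T) (hR : R ⊆ R') (hB : B ⊆ B') : IsCover R' B' T :=
  ⟨fun s hs => (h.star s hs).mono hR hB, h.disj, h.cross⟩

theorem Wst.swap (h : Wst R B k) : Wst B R k := by
  obtain ⟨T, hT, hk⟩ := h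
  exact ⟨T, hT.swap, by omega⟩

theorem Wst.mono (h : Wst R B k) (hR : R ⊆ R') (hB : B ⊆ B')
    (hk : k + (R'.card - R.card) + (B'.card - B.card) ≤ k') : Wst R' B' k' := by
  obtain ⟨T, hT, hk1⟩ := h
  have h1 := Finset.card_le_card hR
  have h2 := Finset.card_le_card hB
  exact ⟨T, hT.mono hR hB, by omega⟩

theorem IsStar.sub {s : Pt × Finset Pt} (h : IsStar R B s) : insert s.1 s.2 ⊆ R ∪ B := by
  intro p hp
  rw [Finset.mem_insert] at hp
  rw [Finset.mem_union]
  rcases h.2 with h2 | h2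
  · rcases hp with hp | hp
    · rw [hp]
      exact Or.inl h2.1
    · exact Or.inr (h2.2 hp)
  · rcases hp with hp | hp
    · rw [hp]
      exact Or.inr h2.1
    · exact Or.inl (h2.2 hp)

theorem IsStar.card (hd : Disjoint R B) {s : Pt × Finset Pt} (h : IsStar R B s) :
    (insert s.1 s.2).card = 4 := by
  rw [Finset.card_insert_of_notMem, h.1]
  intro hc
  rcases h.2 with h2 | h2
  · exact Finset.disjoint_left.1 hd h2.1 (h2.2 hc)
  · exact Finset.disjoint_left.1 hd (h2.2 hc) h2.1

/-- the number of covered points is four times the number of stars -/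
theorem IsCover.card_biUnion (hd : Disjoint R B) (h : IsCover R B T) :
    (T.biUnion fun s => insert s.1 s.2).card = 4 * T.card := by
  rw [Finset.card_biUnion (fun s hs t ht hst => h.disj s hs t ht hst),
    Finset.sum_congr rfl (fun s hs => (h.star s hs).card hd), Finset.sum_const, smul_eq_mul,
    mul_comm]

theorem IsCover.card_uncovered (hd : Disjoint R B) (h : IsCover R B T) :
    (uncovered R B T).card + 4 * T.card = R.card + B.card := by
  have h1 : (T.biUnion fun s => insert s.1 s.2) ⊆ R ∪ B :=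
    Finset.biUnion_subset.2 fun s hs => (h.star s hs).sub
  unfold uncovered
  rw [← h.card_biUnion hd, Finset.card_sdiff_add_card_eq_card h1,
    Finset.card_union_of_disjoint hd]

theorem seg_le {u p q z : Pt} {c : ℝ} (hz : z ∈ segment ℝ p q) (hp : inner ℝ u p ≤ c)
    (hq : inner ℝ u q ≤ c) : inner ℝ u z ≤ c := by
  obtain ⟨a, b, ha, hb, hab, rfl⟩ := hz
  rw [inner_add_right, inner_smul_right, inner_smul_right]
  have h1 := mul_le_mul_of_nonneg_left hp ha
  have h2 := mul_le_mul_of_nonneg_left hq hb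
  calc a * inner ℝ u p + b * inner ℝ u q ≤ a * c + b * c := add_le_add h1 h2
    _ = c := by rw [← add_mul, hab, one_mul]

theorem seg_lt {u p q z : Pt} {c : ℝ} (hz : z ∈ segment ℝ p q) (hp : c < inner ℝ u p)
    (hq : c < inner ℝ u q) : c < inner ℝ u z := by
  obtain ⟨a, b, ha, hb, hab, rfl⟩ := hz
  rw [inner_add_right, inner_smul_right, inner_smul_right]
  rcases ha.eq_or_lt with h0 | h0
  · rw [← h0] at hab ⊢
    rw [zero_add] at hab
    rw [hab]
    linarith
  · have h1 := mul_lt_mul_of_pos_left hp h0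
    have h2 := mul_le_mul_of_nonneg_left hq.le hb
    calc c = a * c + b * c := by rw [← add_mul, hab, one_mul]
      _ < a * inner ℝ u p + b * inner ℝ u q := add_lt_add_of_lt_of_le h1 h2

/-- two segments whose end points are separated by a line are disjoint -/
theorem seg_disjoint {u p p' q q' : Pt} (h1 : inner ℝ u p < inner ℝ u q)
    (h2 : inner ℝ u p < inner ℝ u q') (h3 : inner ℝ u p' < inner ℝ u q)
    (h4 : inner ℝ u p' < inner ℝ u q') : Disjoint (segment ℝ p p') (segment ℝ q q') := by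
  rw [Set.disjoint_left]
  intro z hz hz'
  have h5 := seg_le hz (le_max_left (inner ℝ u p) (inner ℝ u p')) (le_max_right _ _)
  have h6 := seg_lt (c := max (inner ℝ u p) (inner ℝ u p')) hz' (max_lt h1 h3) (max_lt h2 h4)
  exact lt_irrefl _ (h5.trans_lt h6)

/-- covers of two parts which are separated by a line can be put together -/
theorem Wst.union {R₁ B₁ R₂ B₂ : Finset Pt} {k₁ k₂ : ℕ} (h₁ : Wst R₁ B₁ k₁) (h₂ : Wst R₂ B₂ k₂)
    (u : Pt) (hs : ∀ p ∈ R₁ ∪ B₁, ∀ q ∈ R₂ ∪ B₂, inner ℝ u p < inner ℝ u q) :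
    Wst (R₁ ∪ R₂) (B₁ ∪ B₂) (k₁ + k₂) := by
  obtain ⟨T₁, hT₁, hk₁⟩ := h₁
  obtain ⟨T₂, hT₂, hk₂⟩ := h₂
  have hsv : ∀ s ∈ T₁, ∀ t ∈ T₂, ∀ p ∈ insert s.1 s.2, ∀ q ∈ insert t.1 t.2,
      inner ℝ u p < inner ℝ u q := fun s hs' t ht p hp q hq =>
    hs p ((hT₁.star s hs').sub hp) q ((hT₂.star t ht).sub hq)
  have hdv : ∀ s ∈ T₁, ∀ t ∈ T₂, Disjoint (insert s.1 s.2) (insert t.1 t.2) := by
    intro s hs' t ht
    rw [Finset.disjoint_left]
    intro p hp hp'
    exact lt_irrefl _ (hsv s hs' t ht p hp p hp')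
  have hcr : ∀ s ∈ T₁, ∀ t ∈ T₂, ∀ p ∈ s.2, ∀ q ∈ t.2,
      Disjoint (segment ℝ s.1 p) (segment ℝ t.1 q) := by
    intro s hs' t ht p hp q hq
    have h1 := hsv s hs' t ht
    exact seg_disjoint (h1 _ (Finset.mem_insert_self _ _) _ (Finset.mem_insert_self _ _))
      (h1 _ (Finset.mem_insert_self _ _) _ (Finset.mem_insert_of_mem hq))
      (h1 _ (Finset.mem_insert_of_mem hp) _ (Finset.mem_insert_self _ _))
      (h1 _ (Finset.mem_insert_of_mem hp) _ (Finset.mem_insert_of_mem hq))
  have hT : Disjoint T₁ T₂ := by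
    rw [Finset.disjoint_left]
    intro s hs' hs''
    exact Finset.disjoint_left.1 (hdv s hs' s hs'') (Finset.mem_insert_self _ _)
      (Finset.mem_insert_self _ _)
  refine ⟨T₁ ∪ T₂, ⟨?_, ?_, ?_⟩, ?_⟩
  · intro s hs'
    rcases Finset.mem_union.1 hs' with h | h
    · exact (hT₁.star s h).mono Finset.subset_union_left Finset.subset_union_left
    · exact (hT₂.star s h).mono Finset.subset_union_right Finset.subset_union_right
  · intro s hs' t ht hst
    rcases Finset.mem_union.1 hs' with h | h <;> rcases Finset.mem_union.1 ht with h' | h'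
    · exact hT₁.disj s h t h' hst
    · exact hdv s h t h'
    · exact (hdv t h' s h).symm
    · exact hT₂.disj s h t h' hst
  · intro s hs' t ht hst p hp q hq
    rcases Finset.mem_union.1 hs' with h | h <;> rcases Finset.mem_union.1 ht with h' | h'
    · exact hT₁.cross s h t h' hst p hp q hq
    · exact hcr s h t h' p hp q hq
    · exact (hcr t h' s h q hq p hp).symm
    · exact hT₂.cross s h t h' hst p hp q hq
  · rw [Finset.card_union_of_disjoint hT]
    have h1 := Finset.card_union_le R₁ R₂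
    have h2 := Finset.card_union_le B₁ B₂
    omega

end Pool.Agent.MP_d4f14f_co
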