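import Mathlib

/-!
# MP_d4f14f_co: coverings of two-coloured point sets by non-crossing stars.  Definitions.
-/

noncomputable section

open scoped Classical

namespace Pool.Agent.MP_d4f14f_co

/-- points of the plane -/
abbrev Pt : Type := EuclideanSpace ℝ (Fin 2)

/-- general position: no three distinct points of `S` are collinear -/
def GenPos (S : Finset Pt) : Prop :=
  ∀ p ∈ S, ∀ q ∈ S, ∀ t ∈ S, p ≠ q → p ≠ t → q ≠ t → ¬ Collinear ℝ ({p, q, t} : Set Pt)

/-- a star with centre `s.1` and set of leaves `s.2`: three leaves, the centre has one colour and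
the leaves have the other colour -/
def IsStar (R B : Finset Pt) (s : Pt × Finset Pt) : Prop :=
  s.2.card = 3 ∧ ((s.1 ∈ R ∧ s.2 ⊆ B) ∨ (s.1 ∈ B ∧ s.2 ⊆ R))

/-- a finite family of stars with pairwise disjoint vertex sets, such that no leg of one star meets
a leg of another one -/
structure IsCover (R B : Finset Pt) (T : Finset (Pt × Finset Pt)) : Prop where
  star : ∀ s ∈ T, IsStar R B s
  disj : ∀ s ∈ T, ∀ t ∈ T, s ≠ t → Disjoint (insert s.1 s.2) (insert t.1 t.2)
  cross : ∀ s ∈ T, ∀ t ∈ T, s ≠ t → ∀ p ∈ s.2, ∀ q ∈ t.2,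
    Disjoint (segment ℝ s.1 p) (segment ℝ t.1 q)

/-- the points of `R ∪ B` which are not vertices of a star of the family -/
def uncovered (R B : Finset Pt) (T : Finset (Pt × Finset Pt)) : Finset Pt :=
  (R ∪ B) \ T.biUnion fun s => insert s.1 s.2

/-- there is a cover with `T` stars, `|R| + |B| ≤ 4 |T| + k` -/
def Wst (R B : Finset Pt) (k : ℕ) : Prop :=
  ∃ T : Finset (Pt × Finset Pt), IsCover R B T ∧ R.card + B.card ≤ 4 * T.card + k

end Pool.Agent.MP_d4f14f_co
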