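import Pool.Agent.Lib.MP_d4f14f_co.Cov

/-!
# MP_d4f14f_co: generic directions, ranks and the intermediate value theorems
-/

noncomputable section

open scoped Classical Topology

open Filter

namespace Pool.Agent.MP_d4f14f_co

variable {S C : Finset Pt} {u v p q : Pt} {i m : ℕ}

/-- the direction `u` is generic for `S` -/
def Gen (S : Finset Pt) (u : Pt) : Prop :=
  u ≠ 0 ∧ ∀ p ∈ S, ∀ q ∈ S, p ≠ q → (inner ℝ u p : ℝ) ≠ inner ℝ u q

/-- the rank of `p` in the direction `u` -/
def rk (S : Finset Pt) (u p : Pt) : ℕ :=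
  (S.filter fun q => (inner ℝ u q : ℝ) < inner ℝ u p).card

/-- the number of points of `C` of rank less than `i` -/
def cnt (S C : Finset Pt) (u : Pt) (i : ℕ) : ℕ := (C.filter fun p => rk S u p < i).card

theorem Gen.neg (h : Gen S u) : Gen S (-u) := by
  refine ⟨neg_ne_zero.2 h.1, fun p hp q hq hpq => ?_⟩
  rw [inner_neg_left, inner_neg_left]
  exact fun hc => h.2 p hp q hq hpq (neg_inj.1 hc)

theorem rk_lt (hp : p ∈ S) (h : (inner ℝ u p : ℝ) < inner ℝ u q) : rk S u p < rk S u q := by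
  apply Finset.card_lt_card
  rw [Finset.ssubset_iff_of_subset]
  · exact ⟨p, by simp [hp, h], by simp⟩
  · intro t ht
    rw [Finset.mem_filter] at ht ⊢
    exact ⟨ht.1, ht.2.trans h⟩

theorem rk_le (h : (inner ℝ u p : ℝ) ≤ inner ℝ u q) : rk S u p ≤ rk S u q := by
  apply Finset.card_le_card
  intro t ht
  rw [Finset.mem_filter] at ht ⊢
  exact ⟨ht.1, ht.2.trans_le h⟩

theorem lt_of_rk (h : rk S u p < rk S u q) : (inner ℝ u p : ℝ) < inner ℝ u q := by
  by_contra hc
  exact absurd h (not_lt.2 (rk_le (not_lt.1 hc)))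

theorem rk_lt_card (hp : p ∈ S) : rk S u p < S.card := by
  apply Finset.card_lt_card
  rw [Finset.ssubset_iff_of_subset (Finset.filter_subset _ _)]
  exact ⟨p, hp, by simp⟩

theorem rk_inj (hu : Gen S u) (hp : p ∈ S) (hq : q ∈ S) (h : rk S u p = rk S u q) : p = q := by
  by_contra hne
  rcases lt_or_gt_of_ne (hu.2 p hp q hq hne) with h1 | h1
  · exact absurd h (rk_lt hp h1).ne
  · exact absurd h (rk_lt hq h1).ne'

theorem image_rk (hu : Gen S u) : S.image (rk S u) = Finset.range S.card := by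
  apply Finset.eq_of_subset_of_card_le
  · intro j hj
    rw [Finset.mem_image] at hj
    obtain ⟨p, hp, rfl⟩ := hj
    exact Finset.mem_range.2 (rk_lt_card hp)
  · rw [Finset.card_range, Finset.card_image_of_injOn]
    intro p hp q hq h
    exact rk_inj hu hp hq h

theorem cnt_self (hu : Gen S u) (hi : i ≤ S.card) : cnt S S u i = i := by
  have h1 : (S.filter fun p => rk S u p < i).image (rk S u) = Finset.range i := by
    ext j
    rw [Finset.mem_image, Finset.mem_range]
    constructor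
    · rintro ⟨p, hp, rfl⟩
      exact (Finset.mem_filter.1 hp).2
    · intro hj
      have h2 : j ∈ S.image (rk S u) := by
        rw [image_rk hu]
        exact Finset.mem_range.2 (by omega)
      obtain ⟨p, hp, rfl⟩ := Finset.mem_image.1 h2
      exact ⟨p, Finset.mem_filter.2 ⟨hp, hj⟩, rfl⟩
  have h3 := congrArg Finset.card h1
  rw [Finset.card_range, Finset.card_image_of_injOn] at h3
  · exact h3
  · intro p hp q hq h
    exact rk_inj hu (Finset.mem_filter.1 hp).1 (Finset.mem_filter.1 hq).1 h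

theorem rk_neg (hu : Gen S u) (hp : p ∈ S) : rk S (-u) p + rk S u p + 1 = S.card := by
  have h1 := Finset.card_filter_add_card_filter_not
    (s := S) (fun q => (inner ℝ u q : ℝ) < inner ℝ u p)
  have h2 : (S.filter fun q => ¬ (inner ℝ u q : ℝ) < inner ℝ u p)
      = insert p (S.filter fun q => (inner ℝ (-u) q : ℝ) < inner ℝ (-u) p) := by
    ext t
    rw [Finset.mem_filter, Finset.mem_insert, Finset.mem_filter, inner_neg_left, inner_neg_left,
      neg_lt_neg_iff]
    constructor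
    · rintro ⟨h3, h4⟩
      by_cases htp : t = p
      · exact Or.inl htp
      · exact Or.inr ⟨h3, lt_of_le_of_ne (not_lt.1 h4) (hu.2 p hp t h3 (Ne.symm htp))⟩
    · rintro (rfl | h3)
      · exact ⟨hp, lt_irrefl _⟩
      · exact ⟨h3.1, not_lt.2 h3.2.le⟩
  rw [h2, Finset.card_insert_of_notMem (by simp)] at h1
  unfold rk
  omega

theorem cnt_neg (hu : Gen S u) (hC : C ⊆ S) (hi : i ≤ S.card) :
    cnt S C (-u) (S.card - i) + cnt S C u i = C.card := by
  have h1 := Finset.card_filter_add_card_filter_not (s := C) (fun p => rk S u p < i)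
  have h2 : (C.filter fun p => ¬ rk S u p < i) = C.filter fun p => rk S (-u) p < S.card - i := by
    refine Finset.filter_congr fun p hp => ?_
    have h3 := rk_neg hu (hC hp)
    omega
  rw [h2] at h1
  unfold cnt
  omega

theorem cnt_mono {j : ℕ} (h : i ≤ j) : cnt S C u i ≤ cnt S C u j := by
  apply Finset.card_le_card
  intro p hp
  rw [Finset.mem_filter] at hp ⊢
  exact ⟨hp.1, by omega⟩

theorem cnt_union {R B : Finset Pt} (hd : Disjoint R B) (hu : Gen (R ∪ B) u)
    (hi : i ≤ R.card + B.card) : cnt (R ∪ B) R u i + cnt (R ∪ B) B u i = i := by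
  have h1 := cnt_self hu (i := i) (by rw [Finset.card_union_of_disjoint hd]; exact hi)
  unfold cnt at h1 ⊢
  rw [Finset.filter_union, Finset.card_union_of_disjoint
    (Finset.disjoint_filter_filter hd)] at h1
  exact h1

/-! ### density of the generic directions -/

theorem dense_ne (h : p ≠ q) : Dense {u : Pt | (inner ℝ u p : ℝ) ≠ inner ℝ u q} := by
  rw [Metric.dense_iff]
  intro u₀ ε hε
  by_cases h0 : (inner ℝ u₀ p : ℝ) = inner ℝ u₀ q
  · have hd : p - q ≠ 0 := sub_ne_zero.2 h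
    have hn : 0 < ‖p - q‖ := norm_pos_iff.2 hd
    refine ⟨u₀ + (ε / (2 * ‖p - q‖)) • (p - q), ?_, ?_⟩
    · rw [Metric.mem_ball, dist_eq_norm, add_sub_cancel_left, norm_smul, Real.norm_eq_abs,
        abs_of_pos (by positivity)]
      have : ε / (2 * ‖p - q‖) * ‖p - q‖ = ε / 2 := by
        field_simp
      rw [this]
      linarith
    · intro hc
      have h1 : (inner ℝ (u₀ + (ε / (2 * ‖p - q‖)) • (p - q)) (p - q) : ℝ) = 0 := by
        rw [inner_sub_right, hc, sub_self]
      rw [inner_add_left, inner_smul_left, real_inner_self_eq_norm_sq, inner_sub_right, h0,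
        sub_self, zero_add] at h1
      have h2 : 0 < ε / (2 * ‖p - q‖) := by positivity
      have h3 : 0 < ‖p - q‖ ^ 2 := by positivity
      have h4 := mul_pos h2 h3
      simp only [conj_trivial] at h1
      linarith
  · exact ⟨u₀, Metric.mem_ball_self hε, h0⟩

theorem isOpen_ne' (p q : Pt) : IsOpen {u : Pt | (inner ℝ u p : ℝ) ≠ inner ℝ u q} :=
  isOpen_ne_fun (continuous_id.inner continuous_const) (continuous_id.inner continuous_const)

theorem dense_gen (S : Finset Pt) : Dense {u : Pt | Gen S u} := by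
  have h1 : Dense (⋂ s ∈ (↑S.offDiag : Set (Pt × Pt)),
      {u : Pt | (inner ℝ u s.1 : ℝ) ≠ inner ℝ u s.2}) := by
    refine dense_biInter_of_isOpen (fun s _ => isOpen_ne' s.1 s.2)
      (Finset.countable_toSet _) fun s hs => dense_ne ?_
    exact (Finset.mem_offDiag.1 (Finset.mem_coe.1 hs)).2.2
  have h2 : Dense ({(0 : Pt)}ᶜ : Set Pt) := dense_compl_singleton 0
  have h3 := h2.inter_of_isOpen_left h1 isOpen_compl_singleton
  refine h3.mono ?_
  rintro u ⟨hu0, hu⟩
  refine ⟨hu0, fun p hp q hq hpq => ?_⟩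
  rw [Set.mem_iInter₂] at hu
  exact hu (p, q) (Finset.mem_coe.2 (Finset.mem_offDiag.2 ⟨hp, hq, hpq⟩))

theorem exists_gen (S : Finset Pt) : ∃ u, Gen S u := (dense_gen S).nonempty

theorem eventually_strict (S : Finset Pt) (u₀ : Pt) : ∀ᶠ u in 𝓝 u₀, ∀ p ∈ S, ∀ q ∈ S,
    (inner ℝ u₀ p : ℝ) < inner ℝ u₀ q → (inner ℝ u p : ℝ) < inner ℝ u q := by
  rw [Finset.eventually_all]
  intro p _
  rw [Finset.eventually_all]
  intro q _
  by_cases h : (inner ℝ u₀ p : ℝ) < inner ℝ u₀ q
  · have h1 : IsOpen {u : Pt | (inner ℝ u p : ℝ) < inner ℝ u q} :=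
      isOpen_lt (continuous_id.inner continuous_const) (continuous_id.inner continuous_const)
    filter_upwards [h1.mem_nhds h] with u hu _ using hu
  · exact Eventually.of_forall fun u hc => absurd hc h

/-- perturbation of a direction to a generic one, which keeps all strict inequalities -/
theorem pert_zero (S : Finset Pt) (u₀ : Pt) : ∃ u, Gen S u ∧ ∀ p ∈ S, ∀ q ∈ S,
    (inner ℝ u₀ p : ℝ) < inner ℝ u₀ q → (inner ℝ u p : ℝ) < inner ℝ u q := by
  obtain ⟨O, hO, hOo, hu₀⟩ := eventually_nhds_iff.1 (eventually_strict S u₀)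
  obtain ⟨u, hu, hg⟩ := (dense_gen S).inter_open_nonempty O hOo ⟨u₀, hu₀⟩
  exact ⟨u, hg, hO u hu⟩

/-- the same, with a tie resolved in a prescribed way -/
theorem pert (S : Finset Pt) (u₀ : Pt) {a b : Pt} (hab : a ≠ b)
    (h : (inner ℝ u₀ a : ℝ) ≤ inner ℝ u₀ b) : ∃ u, Gen S u ∧ (inner ℝ u a : ℝ) < inner ℝ u b ∧
    ∀ p ∈ S, ∀ q ∈ S,
      (inner ℝ u₀ p : ℝ) < inner ℝ u₀ q → (inner ℝ u p : ℝ) < inner ℝ u q := by
  obtain ⟨O, hO, hOo, hu₀⟩ := eventually_nhds_iff.1 (eventually_strict S u₀)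
  have h1 : Tendsto (fun t : ℝ => u₀ + t • (b - a)) (𝓝[>] 0) (𝓝 u₀) := by
    have h2 : Continuous fun t : ℝ => u₀ + t • (b - a) := by fun_prop
    have h3 := h2.tendsto 0
    rw [zero_smul, add_zero] at h3
    exact h3.mono_left nhdsWithin_le_nhds
  obtain ⟨t, ht, ht0⟩ := ((h1.eventually (hOo.mem_nhds hu₀)).and self_mem_nhdsWithin).exists
  have ht1 : (0 : ℝ) < t := ht0
  have h4 : (inner ℝ (u₀ + t • (b - a)) a : ℝ) < inner ℝ (u₀ + t • (b - a)) b := by
    have h5 : (0 : ℝ) < inner ℝ (u₀ + t • (b - a)) (b - a) := by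
      rw [inner_add_left, inner_smul_left, real_inner_self_eq_norm_sq, inner_sub_right,
        conj_trivial]
      have h6 : 0 < ‖b - a‖ := norm_pos_iff.2 (sub_ne_zero.2 hab.symm)
      have h7 : 0 < t * ‖b - a‖ ^ 2 := by positivity
      linarith
    rw [inner_sub_right] at h5
    linarith
  have h8 : IsOpen {u : Pt | (inner ℝ u a : ℝ) < inner ℝ u b} :=
    isOpen_lt (continuous_id.inner continuous_const) (continuous_id.inner continuous_const)
  obtain ⟨u, hu, hg⟩ := (dense_gen S).inter_open_nonempty (O ∩ {u | (inner ℝ u a : ℝ) < inner ℝ u b})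
    (hOo.inter h8) ⟨_, ht, h4⟩
  exact ⟨u, hg, hu.2, hO u hu.1⟩

/-! ### ties -/

theorem collinear_of_tie {t : Pt} (hu : u ≠ 0) (h1 : (inner ℝ u p : ℝ) = inner ℝ u q)
    (h2 : (inner ℝ u p : ℝ) = inner ℝ u t) : Collinear ℝ ({p, q, t} : Set Pt) := by
  have hn : u 0 ^ 2 + u 1 ^ 2 ≠ 0 := by
    intro hc
    apply hu
    have h3 : u 0 = 0 := by nlinarith [sq_nonneg (u 0), sq_nonneg (u 1)]
    have h4 : u 1 = 0 := by nlinarith [sq_nonneg (u 0), sq_nonneg (u 1)]
    ext j
    fin_cases j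
    · exact h3
    · exact h4
  have key : ∀ x : Pt, (inner ℝ u p : ℝ) = inner ℝ u x →
      ∃ r : ℝ, x = r • (!₂[-(u 1), u 0] : Pt) +ᵥ p := by
    intro x hx
    rw [PiLp.inner_apply, PiLp.inner_apply, Fin.sum_univ_two, Fin.sum_univ_two] at hx
    simp only [RCLike.inner_apply, conj_trivial] at hx
    refine ⟨(-(u 1) * (x 0 - p 0) + u 0 * (x 1 - p 1)) / (u 0 ^ 2 + u 1 ^ 2), ?_⟩
    ext j
    fin_cases j
    · simp only [vadd_eq_add, PiLp.add_apply, PiLp.smul_apply, smul_eq_mul, Fin.zero_eta,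
        Matrix.cons_val_zero]
      field_simp
      linear_combination (-(u 0)) * hx
    · simp only [vadd_eq_add, PiLp.add_apply, PiLp.smul_apply, smul_eq_mul, Fin.mk_one,
        Matrix.cons_val_one, Matrix.cons_val_fin_one]
      field_simp
      linear_combination (-(u 1)) * hx
  rw [collinear_iff_of_mem (p₀ := p) (by simp)]
  refine ⟨!₂[-(u 1), u 0], ?_⟩
  intro x hx
  simp only [Set.mem_insert_iff, Set.mem_singleton_iff] at hx
  rcases hx with rfl | rfl | rfl
  · exact key _ rfl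
  · exact key _ h1
  · exact key _ h2

/-- among three points of `S` at the same height two are equal -/
theorem tie_eq (hg : GenPos S) (hu : u ≠ 0) {t : Pt} (hp : p ∈ S) (hq : q ∈ S) (ht : t ∈ S)
    (h1 : (inner ℝ u p : ℝ) = inner ℝ u q) (h2 : (inner ℝ u p : ℝ) = inner ℝ u t) (hpq : p ≠ q) :
    t = p ∨ t = q := by
  by_contra hc
  rw [not_or] at hc
  exact hg p hp q hq t ht hpq (Ne.symm hc.1) (Ne.symm hc.2) (collinear_of_tie hu h1 h2)

end Pool.Agent.MP_d4f14f_co
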