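import Pool.Agent.Lib.MP_d4f14f_co.Dir

/-!
# MP_d4f14f_co: the two intermediate value theorems
-/

noncomputable section

open scoped Classical Topology

open Filter

namespace Pool.Agent.MP_d4f14f_co

variable {S C : Finset Pt} {u v p q : Pt} {i m : ℕ}

theorem preconn : IsPreconnected ({(0 : Pt)}ᶜ : Set Pt) := by
  refine (isConnected_compl_singleton_of_one_lt_rank ?_ 0).isPreconnected
  rw [← Module.finrank_eq_rank, finrank_euclideanSpace_fin]
  norm_num

/-- weakly separated subsets -/
def WSep (S : Finset Pt) (u : Pt) (A : Finset Pt) : Prop :=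
  A ⊆ S ∧ ∀ p ∈ A, ∀ q ∈ S, q ∉ A → (inner ℝ u p : ℝ) ≤ inner ℝ u q

theorem wsep_exists (u : Pt) : ∀ i ≤ S.card, ∃ A, WSep S u A ∧ A.card = i := by
  intro i
  induction i with
  | zero => exact fun _ => ⟨∅, ⟨Finset.empty_subset _, by simp⟩, rfl⟩
  | succ i ih =>
    intro hi
    obtain ⟨A, hA, hc⟩ := ih (by omega)
    have hne : (S \ A).Nonempty := by
      rw [← Finset.card_pos, Finset.card_sdiff_of_subset hA.1]
      omega
    obtain ⟨q, hq, hmin⟩ := Finset.exists_min_image (S \ A) (fun q => (inner ℝ u q : ℝ)) hne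
    rw [Finset.mem_sdiff] at hq
    refine ⟨insert q A, ⟨Finset.insert_subset hq.1 hA.1, ?_⟩, ?_⟩
    · intro p hp t ht htA
      rw [Finset.mem_insert, not_or] at htA
      rcases Finset.mem_insert.1 hp with rfl | hp
      · exact hmin t (Finset.mem_sdiff.2 ⟨ht, htA.2⟩)
      · exact hA.2 p hp t ht htA.2
    · rw [Finset.card_insert_of_notMem hq.2, hc]

/-- a strictly separated set is an initial segment -/
theorem sep_pre {A : Finset Pt} (hA : A ⊆ S)
    (h : ∀ p ∈ A, ∀ q ∈ S, q ∉ A → (inner ℝ u p : ℝ) < inner ℝ u q) :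
    A = S.filter fun p => rk S u p < A.card := by
  ext p
  rw [Finset.mem_filter]
  constructor
  · intro hp
    refine ⟨hA hp, ?_⟩
    apply Finset.card_lt_card
    rw [Finset.ssubset_iff_of_subset]
    · exact ⟨p, hp, by simp⟩
    · intro q hq
      rw [Finset.mem_filter] at hq
      by_contra hqA
      exact absurd hq.2 (not_lt.2 (h p hp q hq.1 hqA).le)
  · rintro ⟨hp, hr⟩
    by_contra hpA
    apply absurd hr
    rw [not_lt]
    apply Finset.card_le_card
    intro q hq
    rw [Finset.mem_filter]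
    exact ⟨hA hq, h q hq p hp hpA⟩

theorem wsep_gen (hg : GenPos S) (hu : u ≠ 0) {A : Finset Pt} (hA : WSep S u A) :
    ∃ u', Gen S u' ∧ A = S.filter fun p => rk S u' p < A.card := by
  by_cases ht : ∃ p ∈ A, ∃ q ∈ S, q ∉ A ∧ (inner ℝ u p : ℝ) = inner ℝ u q
  · obtain ⟨a, ha, b, hb, hbA, hab⟩ := ht
    have hne : a ≠ b := by
      rintro rfl
      exact hbA ha
    obtain ⟨u', hu', h1, h2⟩ := pert S u hne hab.le
    refine ⟨u', hu', sep_pre hA.1 fun p hp q hq hqA => ?_⟩
    rcases (hA.2 p hp q hq hqA).lt_or_eq with h3 | h3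
    · exact h2 p (hA.1 hp) q hq h3
    · have h4 : (inner ℝ u a : ℝ) = inner ℝ u p := by
        have h5 := hA.2 a ha q hq hqA
        have h6 := hA.2 p hp b hb hbA
        linarith
      have h5 : p = a := by
        rcases tie_eq hg hu (hA.1 ha) hb (hA.1 hp) hab h4 hne with h | h
        · exact h
        · exact absurd (h ▸ hp) hbA
      have h6 : q = b := by
        rcases tie_eq hg hu (hA.1 ha) hb hq hab (h4.trans h3) hne with h | h
        · exact absurd (h ▸ ha) hqA
        · exact h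
      rw [h5, h6]
      exact h1
  · obtain ⟨u', hu', h2⟩ := pert_zero S u
    refine ⟨u', hu', sep_pre hA.1 fun p hp q hq hqA => ?_⟩
    refine h2 p (hA.1 hp) q hq (lt_of_le_of_ne (hA.2 p hp q hq hqA) fun h3 => ?_)
    exact ht ⟨p, hp, q, hq, hqA, h3⟩

/-- two weakly separated sets of the same size differ by at most one exchange -/
theorem wsep_close (hg : GenPos S) (hu : u ≠ 0) (B : Finset Pt) {A A' : Finset Pt}
    (hA : WSep S u A) (hA' : WSep S u A') (hc : A.card = A'.card) :
    (B ∩ A).card ≤ (B ∩ A').card + 1 := by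
  have h1 : ∀ p ∈ A \ A', ∀ q ∈ A' \ A, (inner ℝ u p : ℝ) = inner ℝ u q := by
    intro p hp q hq
    rw [Finset.mem_sdiff] at hp hq
    exact le_antisymm (hA.2 p hp.1 q (hA'.1 hq.1) hq.2) (hA'.2 q hq.1 p (hA.1 hp.1) hp.2)
  have h2 : (A \ A').card ≤ 1 := by
    rw [Finset.card_le_one]
    intro p hp p' hp'
    by_contra hne
    have h3 : (A' \ A).card = (A \ A').card := Finset.card_sdiff_comm hc.symm
    have h4 : 0 < (A' \ A).card := by
      rw [h3]
      exact Finset.card_pos.2 ⟨p, hp⟩
    obtain ⟨q, hq⟩ := Finset.card_pos.1 h4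
    have e1 := h1 p hp q hq
    have e2 := h1 p' hp' q hq
    rw [Finset.mem_sdiff] at hp hp' hq
    rcases tie_eq hg hu (hA.1 hp.1) (hA.1 hp'.1) (hA'.1 hq.1) (e1.trans e2.symm) e1 hne
      with h | h
    · exact hq.2 (h ▸ hp.1)
    · exact hq.2 (h ▸ hp'.1)
  have h5 : B ∩ A ⊆ (B ∩ A') ∪ (A \ A') := by
    intro p hp
    rw [Finset.mem_inter] at hp
    rw [Finset.mem_union, Finset.mem_inter, Finset.mem_sdiff]
    by_cases h : p ∈ A'
    · exact Or.inl ⟨hp.1, h⟩
    · exact Or.inr ⟨hp.2, h⟩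
  have h6 := (Finset.card_le_card h5).trans (Finset.card_union_le _ _)
  omega

theorem not_wsep_eventually {A : Finset Pt} (hA : A ⊆ S) (h : ¬ WSep S u A) :
    ∀ᶠ u' in 𝓝 u, ¬ WSep S u' A := by
  have h1 : ∃ p ∈ A, ∃ q ∈ S, q ∉ A ∧ (inner ℝ u q : ℝ) < inner ℝ u p := by
    by_contra hc
    apply h
    refine ⟨hA, fun p hp q hq hqA => ?_⟩
    by_contra hlt
    exact hc ⟨p, hp, q, hq, hqA, not_le.1 hlt⟩
  obtain ⟨p, hp, q, hq, hqA, hlt⟩ := h1
  filter_upwards [eventually_strict S u] with u' hu' hw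
  exact absurd (hw.2 p hp q hq hqA) (not_le.2 (hu' q hq p (hA hp) hlt))

theorem cnt_eq_inter (hC : C ⊆ S) : cnt S C u i = (C ∩ S.filter fun p => rk S u p < i).card := by
  unfold cnt
  congr 1
  ext p
  rw [Finset.mem_filter, Finset.mem_inter, Finset.mem_filter]
  exact ⟨fun h => ⟨h.1, hC h.1, h.2⟩, fun h => ⟨h.1, h.2.2⟩⟩

theorem gen_wsep (u : Pt) (i : ℕ) : WSep S u (S.filter fun p => rk S u p < i) := by
  refine ⟨Finset.filter_subset _ _, fun p hp q hq hqA => ?_⟩
  rw [Finset.mem_filter] at hp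
  have h1 : ¬ rk S u q < i := fun hc => hqA (Finset.mem_filter.2 ⟨hq, hc⟩)
  have h2 : rk S u p < rk S u q := by omega
  exact (lt_of_rk h2).le

/-- if the number of points of `C` among the first `i` is never `m`, then it is always less than `m`
or always more than `m` -/
theorem sign (hg : GenPos S) (hC : C ⊆ S) (hi : i ≤ S.card)
    (h : ∀ u, Gen S u → cnt S C u i ≠ m) :
    (∀ u, Gen S u → cnt S C u i < m) ∨ (∀ u, Gen S u → m < cnt S C u i) := by
  have hA : ∀ u : Pt, u ≠ 0 → ∀ A, WSep S u A → A.card = i → (C ∩ A).card ≠ m := by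
    intro u hu A hA hc
    obtain ⟨u', hu', h1⟩ := wsep_gen hg hu hA
    have h2 := h u' hu'
    rw [cnt_eq_inter hC, ← hc, ← h1] at h2
    exact h2
  let U₁ : Set Pt := {u | ∀ A ∈ Finset.powersetCard i S, WSep S u A → (C ∩ A).card < m}
  let U₂ : Set Pt := {u | ∀ A ∈ Finset.powersetCard i S, WSep S u A → m < (C ∩ A).card}
  have ho₁ : IsOpen U₁ := by
    rw [isOpen_iff_eventually]
    intro u hu
    refine (Finset.eventually_all _).2 fun A hAm => ?_
    by_cases hw : WSep S u A
    · exact Eventually.of_forall fun _ _ => hu A hAm hw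
    · filter_upwards [not_wsep_eventually (Finset.mem_powersetCard.1 hAm).1 hw] with u' hu' hc
      exact absurd hc hu'
  have ho₂ : IsOpen U₂ := by
    rw [isOpen_iff_eventually]
    intro u hu
    refine (Finset.eventually_all _).2 fun A hAm => ?_
    by_cases hw : WSep S u A
    · exact Eventually.of_forall fun _ _ => hu A hAm hw
    · filter_upwards [not_wsep_eventually (Finset.mem_powersetCard.1 hAm).1 hw] with u' hu' hc
      exact absurd hc hu'
  have hcov : ({(0 : Pt)}ᶜ : Set Pt) ⊆ U₁ ∪ U₂ := by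
    intro u hu
    by_contra hc
    rw [Set.mem_union, not_or] at hc
    obtain ⟨hc1, hc2⟩ := hc
    have h1 : ∃ A ∈ Finset.powersetCard i S, WSep S u A ∧ m ≤ (C ∩ A).card := by
      by_contra hc
      apply hc1
      intro A hAm hw
      by_contra hlt
      exact hc ⟨A, hAm, hw, not_lt.1 hlt⟩
    have h2 : ∃ A ∈ Finset.powersetCard i S, WSep S u A ∧ (C ∩ A).card ≤ m := by
      by_contra hc
      apply hc2
      intro A hAm hw
      by_contra hlt
      exact hc ⟨A, hAm, hw, not_lt.1 hlt⟩
    obtain ⟨A, hAm, hw, hle⟩ := h1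
    obtain ⟨A', hAm', hw', hle'⟩ := h2
    have hc := (Finset.mem_powersetCard.1 hAm).2
    have hc' := (Finset.mem_powersetCard.1 hAm').2
    have h3 := hA u hu A hw hc
    have h4 := hA u hu A' hw' hc'
    have h5 := wsep_close hg hu C hw hw' (hc.trans hc'.symm)
    omega
  have hdis : Disjoint ({(0 : Pt)}ᶜ ∩ U₁) U₂ := by
    rw [Set.disjoint_left]
    rintro u ⟨-, h1⟩ h2
    obtain ⟨A, hw, hc⟩ := wsep_exists (S := S) u i hi
    have hAm : A ∈ Finset.powersetCard i S := Finset.mem_powersetCard.2 ⟨hw.1, hc⟩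
    exact absurd (h1 A hAm hw) (not_lt.2 (h2 A hAm hw).le)
  have hpre : ∀ u, Gen S u →
      (S.filter fun p => rk S u p < i) ∈ Finset.powersetCard i S := by
    intro u hu
    exact Finset.mem_powersetCard.2 ⟨Finset.filter_subset _ _, cnt_self hu hi⟩
  have hempty : ({(0 : Pt)}ᶜ : Set Pt) ∩ (U₁ ∩ U₂) = ∅ := by
    rw [← Set.inter_assoc]
    exact Set.disjoint_iff_inter_eq_empty.1 hdis
  rcases isPreconnected_iff_subset_of_disjoint.1 preconn U₁ U₂ ho₁ ho₂ hcov hempty with h1 | h1
  · refine Or.inl fun u hu => ?_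
    rw [cnt_eq_inter hC]
    exact h1 hu.1 _ (hpre u hu) (gen_wsep u i)
  · refine Or.inr fun u hu => ?_
    rw [cnt_eq_inter hC]
    exact h1 hu.1 _ (hpre u hu) (gen_wsep u i)

/-- the number of points other than `v` which are not above `v` -/
def hi' (S : Finset Pt) (u v : Pt) : ℕ :=
  (S.filter fun q => q ≠ v ∧ (inner ℝ u q : ℝ) ≤ inner ℝ u v).card

theorem rk_le_hi : rk S u v ≤ hi' S u v := by
  apply Finset.card_le_card
  intro q hq
  rw [Finset.mem_filter] at hq ⊢
  refine ⟨hq.1, ?_, hq.2.le⟩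
  rintro rfl
  exact lt_irrefl _ hq.2

theorem hi_of_gen (hu : Gen S u) (hv : v ∈ S) : hi' S u v = rk S u v := by
  refine le_antisymm ?_ rk_le_hi
  apply Finset.card_le_card
  intro q hq
  rw [Finset.mem_filter] at hq ⊢
  exact ⟨hq.1, lt_of_le_of_ne hq.2.2 (hu.2 q hq.1 v hv hq.2.1)⟩

/-- ranks take all intermediate values -/
theorem rank_ivt (hg : GenPos S) (hv : v ∈ S) {u₀ u₁ : Pt} (h0 : Gen S u₀) (h1 : Gen S u₁)
    (hr0 : rk S u₀ v ≤ i) (hr1 : i ≤ rk S u₁ v) : ∃ u, Gen S u ∧ rk S u v = i := by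
  by_contra hno
  let U : Set Pt := {u | i < rk S u v}
  let V : Set Pt := {u | hi' S u v < i}
  have hoU : IsOpen U := by
    rw [isOpen_iff_eventually]
    intro u hu
    filter_upwards [eventually_strict S u] with u' hu'
    have hu1 : i < rk S u v := hu
    refine lt_of_lt_of_le hu1 ?_
    apply Finset.card_le_card
    intro q hq
    rw [Finset.mem_filter] at hq ⊢
    exact ⟨hq.1, hu' q hq.1 v hv hq.2⟩
  have hoV : IsOpen V := by
    rw [isOpen_iff_eventually]
    intro u hu
    filter_upwards [eventually_strict S u] with u' hu'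
    have hu1 : hi' S u v < i := hu
    refine lt_of_le_of_lt ?_ hu1
    apply Finset.card_le_card
    intro q hq
    rw [Finset.mem_filter] at hq ⊢
    refine ⟨hq.1, hq.2.1, ?_⟩
    by_contra hc
    exact absurd hq.2.2 (not_le.2 (hu' v hv q hq.1 (not_le.1 hc)))
  have hcov : ({(0 : Pt)}ᶜ : Set Pt) ⊆ U ∪ V := by
    intro u hu
    by_contra hc
    rw [Set.mem_union, not_or] at hc
    have hc1 : rk S u v ≤ i := not_lt.1 hc.1
    have hc2 : i ≤ hi' S u v := not_lt.1 hc.2
    apply hno
    rcases hc1.eq_or_lt with he | hlt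
    · -- put the tie above
      have key : ∃ u', Gen S u' ∧ (∀ q ∈ S, q ≠ v → (inner ℝ u v : ℝ) ≤ inner ℝ u q →
          (inner ℝ u' v : ℝ) < inner ℝ u' q) ∧ ∀ p ∈ S, ∀ q ∈ S,
          (inner ℝ u p : ℝ) < inner ℝ u q → (inner ℝ u' p : ℝ) < inner ℝ u' q := by
        by_cases ht : ∃ q ∈ S, q ≠ v ∧ (inner ℝ u v : ℝ) = inner ℝ u q
        · obtain ⟨b, hb, hbv, htb⟩ := ht
          obtain ⟨u', hu', h2, h3⟩ := pert S u hbv.symm htb.le
          refine ⟨u', hu', fun q hq hqv hle => ?_, h3⟩
          rcases hle.lt_or_eq with h4 | h4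
          · exact h3 v hv q hq h4
          · rcases tie_eq hg hu hv hb hq htb h4 hbv.symm with h | h
            · exact absurd h hqv
            · rw [h]
              exact h2
        · obtain ⟨u', hu', h3⟩ := pert_zero S u
          refine ⟨u', hu', fun q hq hqv hle => ?_, h3⟩
          rcases hle.lt_or_eq with h4 | h4
          · exact h3 v hv q hq h4
          · exact absurd ⟨q, hq, hqv, h4⟩ ht
      obtain ⟨u', hu', h2, h3⟩ := key
      refine ⟨u', hu', ?_⟩
      rw [← he]
      unfold rk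
      congr 1
      refine Finset.filter_congr fun q hq => ?_
      constructor
      · intro h4
        by_contra h5
        have hqv : q ≠ v := by
          rintro rfl
          exact lt_irrefl _ h4
        exact absurd h4 (not_lt.2 (h2 q hq hqv (not_lt.1 h5)).le)
      · exact h3 q hq v hv
    · -- put the tie below
      have h2 : ∃ b ∈ S, b ≠ v ∧ (inner ℝ u b : ℝ) = inner ℝ u v := by
        by_contra hc
        have h3 : hi' S u v ≤ rk S u v := by
          apply Finset.card_le_card
          intro q hq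
          rw [Finset.mem_filter] at hq ⊢
          refine ⟨hq.1, lt_of_le_of_ne hq.2.2 fun h4 => ?_⟩
          exact hc ⟨q, hq.1, hq.2.1, h4⟩
        omega
      obtain ⟨b, hb, hbv, htb⟩ := h2
      obtain ⟨u', hu', h2, h3⟩ := pert S u hbv htb.le
      refine ⟨u', hu', ?_⟩
      have h4 : ∀ q ∈ S, (inner ℝ u' q : ℝ) < inner ℝ u' v ↔
          (q ≠ v ∧ (inner ℝ u q : ℝ) ≤ inner ℝ u v) := by
        intro q hq
        constructor
        · intro h5
          refine ⟨?_, ?_⟩
          · rintro rfl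
            exact lt_irrefl _ h5
          · by_contra h6
            exact absurd h5 (not_lt.2 (h3 v hv q hq (not_le.1 h6)).le)
        · rintro ⟨h5, h6⟩
          rcases h6.lt_or_eq with h7 | h7
          · exact h3 q hq v hv h7
          · rcases tie_eq hg hu hv hb hq htb.symm h7.symm hbv.symm with h | h
            · exact absurd h h5
            · rw [h]
              exact h2
      have h5 : rk S u' v = hi' S u v := by
        unfold rk hi'
        congr 1
        exact Finset.filter_congr h4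
      have h6 : hi' S u v ≤ rk S u v + 1 := by
        have h7 : (S.filter fun q => q ≠ v ∧ (inner ℝ u q : ℝ) ≤ inner ℝ u v)
            ⊆ insert b (S.filter fun q => (inner ℝ u q : ℝ) < inner ℝ u v) := by
          intro q hq
          rw [Finset.mem_filter] at hq
          rw [Finset.mem_insert, Finset.mem_filter]
          rcases hq.2.2.lt_or_eq with h8 | h8
          · exact Or.inr ⟨hq.1, h8⟩
          · rcases tie_eq hg hu hv hb hq.1 htb.symm h8.symm hbv.symm with h | h
            · exact absurd h hq.2.1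
            · exact Or.inl h
        exact (Finset.card_le_card h7).trans (Finset.card_insert_le _ _)
      omega
  have hempty : ({(0 : Pt)}ᶜ : Set Pt) ∩ (U ∩ V) = ∅ := by
    rw [Set.eq_empty_iff_forall_notMem]
    rintro u ⟨-, h2, h3⟩
    have h4 : i < rk S u v := h2
    have h5 : hi' S u v < i := h3
    have h6 := rk_le_hi (S := S) (u := u) (v := v)
    omega
  rcases isPreconnected_iff_subset_of_disjoint.1 preconn U V hoU hoV hcov hempty with h2 | h2
  · have h3 : i < rk S u₀ v := h2 h0.1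
    omega
  · have h3 : hi' S u₁ v < i := h2 h1.1
    rw [hi_of_gen h1 hv] at h3
    omega

end Pool.Agent.MP_d4f14f_co
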