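import Pool.Agent.Lib.MP_d4f14f_co.Base
import Pool.Agent.Lib.MP_d4f14f_co.Ivt

/-!
# MP_d4f14f_co: the induction
-/

noncomputable section

open scoped Classical

namespace Pool.Agent.MP_d4f14f_co

variable {R B S C : Finset Pt} {u : Pt} {i j k m n x : ℕ}

theorem Wst.split {k₁ k₂ : ℕ} (S : Finset Pt) (u : Pt) (i : ℕ)
    (h₁ : Wst (R.filter fun p => rk S u p < i) (B.filter fun p => rk S u p < i) k₁)
    (h₂ : Wst (R.filter fun p => ¬ rk S u p < i) (B.filter fun p => ¬ rk S u p < i) k₂) :
    Wst R B (k₁ + k₂) := by
  have h3 := h₁.union h₂ u (by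
    intro p hp q hq
    rw [← Finset.filter_union, Finset.mem_filter] at hp hq
    have h4 : rk S u p < rk S u q := by omega
    exact lt_of_rk h4)
  rw [Finset.filter_union_filter_not_eq, Finset.filter_union_filter_not_eq] at h3
  exact h3

theorem Wst.of_erase_blue {p : Pt} (hp : p ∈ B) (h : Wst R (B.erase p) k) : Wst R B (k + 1) :=
  h.mono subset_rfl (Finset.erase_subset _ _) (by
    rw [Finset.card_erase_of_mem hp]
    have := Finset.card_pos.2 ⟨p, hp⟩
    omega)

theorem Wst.of_erase_red {p : Pt} (hp : p ∈ R) (h : Wst (R.erase p) B k) : Wst R B (k + 1) :=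
  (Wst.of_erase_blue hp h.swap).swap

/-- the theorem for sets with fewer than `n` points -/
def IHyp (n : ℕ) : Prop := ∀ (R B : Finset Pt) (x : ℕ), Disjoint R B → GenPos (R ∪ B) →
  R.card + B.card < n → 3 * B.card = R.card + 7 * x → 3 * x ≤ R.card + B.card → Wst R B x

theorem IHyp.sub (ih : IHyp n) (hd : Disjoint R B) (hg : GenPos (R ∪ B)) {R' B' : Finset Pt}
    (hR : R' ⊆ R) (hB : B' ⊆ B) (hn : R'.card + B'.card < n)
    (hx : 3 * B'.card = R'.card + 7 * x) (h3 : 3 * x ≤ R'.card + B'.card) : Wst R' B' x :=
  ih R' B' x (Finset.disjoint_of_subset_left hR (Finset.disjoint_of_subset_right hB hd))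
    (hg.mono (Finset.union_subset_union hR hB)) hn hx h3

theorem card_up (C S : Finset Pt) (u : Pt) (i : ℕ) :
    (C.filter fun p => ¬ rk S u p < i).card + cnt S C u i = C.card := by
  have h := Finset.card_filter_add_card_filter_not (s := C) (fun p => rk S u p < i)
  unfold cnt
  omega

/-- a hit -/
theorem hit (ih : IHyp n) (hd : Disjoint R B) (hg : GenPos (R ∪ B))
    (hn : R.card + B.card = n) (hx : 3 * B.card = R.card + 7 * x)
    (hu : Gen (R ∪ B) u) (hi0 : 0 < i) (hin : i < n) (hjx : j ≤ x)
    (hm : 4 * m = 7 * j + i) (hw1 : 3 * j ≤ i) (hw2 : 3 * (x - j) ≤ n - i)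
    (hc : cnt (R ∪ B) B u i = m) : Wst R B x := by
  have hcr : cnt (R ∪ B) R u i + cnt (R ∪ B) B u i = i := cnt_union hd hu (by omega)
  have hR := card_up R (R ∪ B) u i
  have hB := card_up B (R ∪ B) u i
  have h1 : Wst (R.filter fun p => rk (R ∪ B) u p < i) (B.filter fun p => rk (R ∪ B) u p < i) j :=
    ih.sub hd hg (Finset.filter_subset _ _) (Finset.filter_subset _ _)
      (by unfold cnt at *; omega) (by unfold cnt at *; omega) (by unfold cnt at *; omega)
  have h2 : Wst (R.filter fun p => ¬ rk (R ∪ B) u p < i)
      (B.filter fun p => ¬ rk (R ∪ B) u p < i) (x - j) :=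
    ih.sub hd hg (Finset.filter_subset _ _) (Finset.filter_subset _ _)
      (by omega) (by omega) (by omega)
  have h3 := Wst.split (R ∪ B) u i h1 h2
  rwa [Nat.add_sub_cancel' hjx] at h3

theorem card_low (h : i ≤ k) : ((C.filter fun p => rk S u p < k).filter
    fun p => rk S u p < i).card = cnt S C u i := by
  unfold cnt
  congr 1
  rw [Finset.filter_filter]
  refine Finset.filter_congr fun p _ => ?_
  omega

theorem card_mid (h : i ≤ k) : ((C.filter fun p => rk S u p < k).filter
    fun p => ¬ rk S u p < i).card + cnt S C u i = cnt S C u k := by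
  have h1 := Finset.card_filter_add_card_filter_not
    (s := C.filter fun p => rk S u p < k) (fun p => rk S u p < i)
  rw [card_low h] at h1
  unfold cnt at *
  omega

/-- the block of four points with one red point -/
theorem blockwin (ih : IHyp n) (hd : Disjoint R B) (hg : GenPos (R ∪ B))
    (hn : R.card + B.card = n) (hx : 3 * B.card = R.card + 7 * x)
    (hu : Gen (R ∪ B) u) (hj : 1 ≤ j) (hjx : j + 1 ≤ x)
    (hm : 4 * m = 7 * j + i) (hin : i + 4 < n) (hw1 : 3 * j ≤ i)
    (hw2 : 3 * (x - j) ≤ n - (i + 4)) (hc1 : cnt (R ∪ B) B u i + 1 = m)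
    (hc2 : cnt (R ∪ B) B u (i + 4) = m + 2) : Wst R B x := by
  have hcr : cnt (R ∪ B) R u i + cnt (R ∪ B) B u i = i := cnt_union hd hu (by omega)
  have hcr' : cnt (R ∪ B) R u (i + 4) + cnt (R ∪ B) B u (i + 4) = i + 4 :=
    cnt_union hd hu (by omega)
  -- the last part
  have h3 : Wst (R.filter fun p => ¬ rk (R ∪ B) u p < i + 4)
      (B.filter fun p => ¬ rk (R ∪ B) u p < i + 4) (x - j) := by
    have hR := card_up R (R ∪ B) u (i + 4)
    have hB := card_up B (R ∪ B) u (i + 4)
    have hpos : 0 < (B.filter fun p => ¬ rk (R ∪ B) u p < i + 4).card := by omega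
    obtain ⟨p, hp⟩ := Finset.card_pos.1 hpos
    have hpc := Finset.card_erase_of_mem hp
    have h4 := ih.sub (x := x - j - 1) hd hg
      (R' := R.filter fun p => ¬ rk (R ∪ B) u p < i + 4)
      (B' := (B.filter fun p => ¬ rk (R ∪ B) u p < i + 4).erase p)
      (Finset.filter_subset _ _)
      ((Finset.erase_subset _ _).trans (Finset.filter_subset _ _))
      (by omega) (by omega) (by omega)
    have h5 := Wst.of_erase_blue hp h4
    have e : x - j - 1 + 1 = x - j := by omega
    rwa [e] at h5
  -- the first part
  have h1 : Wst ((R.filter fun p => rk (R ∪ B) u p < i + 4).filter fun p => rk (R ∪ B) u p < i)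
      ((B.filter fun p => rk (R ∪ B) u p < i + 4).filter fun p => rk (R ∪ B) u p < i) j := by
    have hR := card_low (C := R) (S := R ∪ B) (u := u) (i := i) (k := i + 4) (by omega)
    have hB := card_low (C := B) (S := R ∪ B) (u := u) (i := i) (k := i + 4) (by omega)
    have hpos : 0 < ((B.filter fun p => rk (R ∪ B) u p < i + 4).filter
        fun p => rk (R ∪ B) u p < i).card := by omega
    obtain ⟨p, hp⟩ := Finset.card_pos.1 hpos
    have hpc := Finset.card_erase_of_mem hp
    have h4 := ih.sub (x := j - 1) hd hg
      (R' := (R.filter fun p => rk (R ∪ B) u p < i + 4).filter fun p => rk (R ∪ B) u p < i)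
      (B' := ((B.filter fun p => rk (R ∪ B) u p < i + 4).filter
        fun p => rk (R ∪ B) u p < i).erase p)
      ((Finset.filter_subset _ _).trans (Finset.filter_subset _ _))
      ((Finset.erase_subset _ _).trans ((Finset.filter_subset _ _).trans
        (Finset.filter_subset _ _)))
      (by omega) (by omega) (by omega)
    have h5 := Wst.of_erase_blue hp h4
    have e : j - 1 + 1 = j := by omega
    rwa [e] at h5
  -- the block
  have h2 : Wst ((R.filter fun p => rk (R ∪ B) u p < i + 4).filter fun p => ¬ rk (R ∪ B) u p < i)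
      ((B.filter fun p => rk (R ∪ B) u p < i + 4).filter fun p => ¬ rk (R ∪ B) u p < i) 0 := by
    have hR := card_mid (C := R) (S := R ∪ B) (u := u) (i := i) (k := i + 4) (by omega)
    have hB := card_mid (C := B) (S := R ∪ B) (u := u) (i := i) (k := i + 4) (by omega)
    have hRs : ((R.filter fun p => rk (R ∪ B) u p < i + 4).filter
        fun p => ¬ rk (R ∪ B) u p < i) ⊆ R :=
      (Finset.filter_subset _ _).trans (Finset.filter_subset _ _)
    have hBs : ((B.filter fun p => rk (R ∪ B) u p < i + 4).filter
        fun p => ¬ rk (R ∪ B) u p < i) ⊆ B :=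
      (Finset.filter_subset _ _).trans (Finset.filter_subset _ _)
    have h4 := base_blue
      (Finset.disjoint_of_subset_left hRs (Finset.disjoint_of_subset_right hBs hd))
      (hg.mono (Finset.union_subset_union hRs hBs)) (by omega)
    exact h4.mono subset_rfl subset_rfl (by omega)
  have h12 := Wst.split (R ∪ B) u i h1 h2
  have h123 := Wst.split (R ∪ B) u (i + 4) h12 h3
  have e : j + 0 + (x - j) = x := by omega
  rwa [e] at h123

/-- a colour which never occurs at rank `i` does not occur before -/
theorem const_false (hg : GenPos S) (hC : C ⊆ S) (h2 : 2 * i ≤ S.card) {u₀ : Pt}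
    (hu₀ : Gen S u₀) (hpos : 0 < cnt S C u₀ i)
    (h : ∀ u, Gen S u → cnt S C u (i + 1) ≤ cnt S C u i) : False := by
  obtain ⟨v, hv⟩ := Finset.card_pos.1 hpos
  rw [Finset.mem_filter] at hv
  have hvS := hC hv.1
  have h3 := rk_neg hu₀ hvS
  obtain ⟨u, hu, hr⟩ := rank_ivt (i := i) hg hvS hu₀ hu₀.neg (by omega) (by omega)
  have h4 : cnt S C u i < cnt S C u (i + 1) := by
    apply Finset.card_lt_card
    rw [Finset.ssubset_iff_of_subset]
    · refine ⟨v, Finset.mem_filter.2 ⟨hv.1, by omega⟩, ?_⟩
      rw [Finset.mem_filter]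
      rintro ⟨-, h5⟩
      omega
    · intro p hp
      rw [Finset.mem_filter] at hp ⊢
      exact ⟨hp.1, by omega⟩
  exact absurd (h u hu) (not_le.2 h4)

theorem exists_t (h : j ≤ i) (hm : i % 4 = j % 4) : ∃ t, i = j + 4 * t :=
  ⟨(i - j) / 4, by omega⟩

theorem mod_cases {h j b : ℕ} (hb : 2 * b = h + 7 * j) : h % 4 = j % 4 ∨ h % 4 = (j + 2) % 4 := by
  have h1 : h % 2 = j % 2 := by omega
  have h2 : h % 4 < 4 := Nat.mod_lt _ (by norm_num)
  have h3 : j % 4 < 4 := Nat.mod_lt _ (by norm_num)
  have h4 : (h % 4) % 2 = (j % 4) % 2 := by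
    rw [Nat.mod_mod_of_dvd _ (by norm_num), Nat.mod_mod_of_dvd _ (by norm_num), h1]
  have h5 : (j + 2) % 4 = (j % 4 + 2) % 4 := by rw [Nat.mod_add_mod]
  rw [h5]
  generalize h % 4 = a at *
  generalize j % 4 = c at *
  interval_cases a <;> interval_cases c <;> simp at *

theorem step (ih : IHyp n) (hd : Disjoint R B) (hg : GenPos (R ∪ B))
    (hn : R.card + B.card = n) (hx : 3 * B.card = R.card + 7 * x) (h3x : 3 * x ≤ n) :
    Wst R B x := by
  by_cases hx0 : x = 0
  · subst hx0
    exact perfect hd hg (by omega)
  by_cases hbig : 2 * n ≤ 7 * x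
  · exact (base_blue hd hg (by omega)).mono subset_rfl subset_rfl (by omega)
  by_contra hW
  have hS : (R ∪ B).card = n := by rw [Finset.card_union_of_disjoint hd, hn]
  have hRS : R ⊆ R ∪ B := Finset.subset_union_left
  have hBS : B ⊆ R ∪ B := Finset.subset_union_right
  obtain ⟨u₀, hu₀⟩ := exists_gen (R ∪ B)
  have key : ∀ i j m : ℕ, 0 < i → i < n → j ≤ x → 4 * m = 7 * j + i → 3 * j ≤ i →
      3 * (x - j) ≤ n - i → (∀ u, Gen (R ∪ B) u → cnt (R ∪ B) B u i < m) ∨
      (∀ u, Gen (R ∪ B) u → m < cnt (R ∪ B) B u i) := by
    intro i j m h1 h2 h3 h4 h5 h6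
    refine sign hg hBS (by omega) fun u hu hc => hW ?_
    exact hit ih hd hg hn hx hu h1 h2 h3 h4 h5 h6 hc
  have rev : ∀ u, Gen (R ∪ B) u → ∀ i ≤ n,
      cnt (R ∪ B) B (-u) (n - i) + cnt (R ∪ B) B u i = B.card := by
    intro u hu i hi
    have := cnt_neg (i := i) hu hBS (by omega)
    rwa [hS] at this
  have sum : ∀ u, Gen (R ∪ B) u → ∀ i ≤ n,
      cnt (R ∪ B) R u i + cnt (R ∪ B) B u i = i := fun u hu i hi => cnt_union hd hu (by omega)
  have succ : ∀ u, Gen (R ∪ B) u → ∀ i < n,
      cnt (R ∪ B) B u (i + 1) ≤ cnt (R ∪ B) B u i + 1 := by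
    intro u hu i hi
    have h1 := sum u hu i (by omega)
    have h2 := sum u hu (i + 1) (by omega)
    have h3 := cnt_mono (S := R ∪ B) (C := R) (u := u) (i := i) (j := i + 1) (by omega)
    omega
  rcases Nat.even_or_odd' x with ⟨j, hj | hj⟩
  · -- `x = 2 j`
    obtain ⟨h, hh⟩ : ∃ h, n = 2 * h := ⟨n / 2, by omega⟩
    have hmod : h % 4 = j % 4 ∨ h % 4 = (j + 2) % 4 := mod_cases (b := B.card) (by omega)
    rcases hmod with hmod | hmod
    · obtain ⟨m, hm⟩ : ∃ m, 4 * m = 7 * j + h := ⟨(7 * j + h) / 4, by omega⟩
      have h1 := rev u₀ hu₀ h (by omega)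
      have e : n - h = h := by omega
      rw [e] at h1
      rcases key h j m (by omega) (by omega) (by omega) hm (by omega) (by omega) with hs | hs
      · have h2 := hs u₀ hu₀
        have h3 := hs (-u₀) hu₀.neg
        omega
      · have h2 := hs u₀ hu₀
        have h3 := hs (-u₀) hu₀.neg
        omega
    · obtain ⟨i, hi⟩ : ∃ i, h = i + 2 := ⟨h - 2, by omega⟩
      obtain ⟨m, hm⟩ : ∃ m, 4 * m = 7 * j + i := ⟨(7 * j + i) / 4, by omega⟩
      have hij : 3 * j ≤ i := by
        have hm2 : 2 * j < 4 * m := by omega
        have hij0 : j ≤ i := by omega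
        have hij1 : i % 4 = j % 4 := by omega
        obtain ⟨t, ht⟩ := exists_t hij0 hij1
        have hq : 14 * j < 4 * i + 8 := by omega
        have ht2 : 10 * j < 16 * t + 8 := by omega
        have ht3 : j ≤ 2 * t := by omega
        omega
      have h1 := rev u₀ hu₀ i (by omega)
      have h1' := rev (-u₀) hu₀.neg i (by omega)
      have e : n - i = i + 4 := by omega
      rw [e] at h1 h1'
      have hmo := fun u => cnt_mono (S := R ∪ B) (C := B) (u := u) (i := i) (j := i + 4) (by omega)
      rcases key i j m (by omega) (by omega) (by omega) hm (by omega) (by omega) with hs | hs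
      · rcases key (i + 4) j (m + 1) (by omega) (by omega) (by omega) (by omega) (by omega)
          (by omega) with hs' | hs'
        · have h2 := hs u₀ hu₀
          have h3 := hs' (-u₀) hu₀.neg
          omega
        · by_cases hex : ∃ u, Gen (R ∪ B) u ∧
              cnt (R ∪ B) B u (i + 4) ≤ cnt (R ∪ B) B u i + 3
          · obtain ⟨u, hu, hle⟩ := hex
            have h2 := hs u hu
            have h3 := hs' u hu
            exact hW (blockwin (m := m) ih hd hg hn hx hu (j := j) (i := i) (by omega)
              (by omega) (by omega) (by omega) (by omega) (by omega) (by omega) (by omega))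
          · have hall : ∀ u, Gen (R ∪ B) u →
                cnt (R ∪ B) B u i + 4 ≤ cnt (R ∪ B) B u (i + 4) := by
              intro u hu
              by_contra hc
              exact hex ⟨u, hu, by omega⟩
            refine const_false (i := i) hg hRS (by omega) hu₀ ?_ ?_
            · have h2 := hs u₀ hu₀
              have h3 := sum u₀ hu₀ i (by omega)
              omega
            · intro u hu
              have h2 := hall u hu
              have h3 := sum u hu i (by omega)
              have h4 := sum u hu (i + 4) (by omega)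
              have h5 := cnt_mono (S := R ∪ B) (C := R) (u := u) (i := i + 1) (j := i + 4)
                (by omega)
              omega
      · have h2 := hs u₀ hu₀
        have h3 := hs (-u₀) hu₀.neg
        have h4 := hmo (-u₀)
        omega
  · -- `x = 2 j + 1`
    obtain ⟨h, hh⟩ : ∃ h, n = 2 * h + 1 := ⟨n / 2, by omega⟩
    have hmod : h % 4 = j % 4 ∨ h % 4 = (j + 2) % 4 := mod_cases (b := B.card - 2) (by omega)
    rcases hmod with hmod | hmod
    · obtain ⟨m, hm⟩ : ∃ m, 4 * m = 7 * j + h := ⟨(7 * j + h) / 4, by omega⟩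
      have hjh : 3 * j + 2 ≤ h := by omega
      have e : n - h = h + 1 := by omega
      rcases key h j m (by omega) (by omega) (by omega) hm (by omega) (by omega) with hs | hs
      · have h1 := rev u₀ hu₀ h (by omega)
        rw [e] at h1
        have h2 := hs u₀ hu₀
        have h3 := hs (-u₀) hu₀.neg
        have h4 := succ (-u₀) hu₀.neg h (by omega)
        omega
      · refine const_false (i := h) hg hBS (by omega) hu₀ ?_ ?_
        · have := hs u₀ hu₀
          omega
        · intro u hu
          have h1 := rev (-u) hu.neg h (by omega)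
          rw [e, neg_neg] at h1
          have h2 := hs u hu
          have h3 := hs (-u) hu.neg
          omega
    · obtain ⟨i, hi⟩ : ∃ i, h = i + 2 := ⟨h - 2, by omega⟩
      obtain ⟨m, hm⟩ : ∃ m, 4 * m = 7 * j + i := ⟨(7 * j + i) / 4, by omega⟩
      by_cases hi0 : i = 0
      · -- two red and three blue points
        have hR2 : R.card = 2 := by omega
        have hB3 : B.card = 3 := by omega
        have hpos : 0 < R.card := by omega
        obtain ⟨p, hp⟩ := Finset.card_pos.1 hpos
        have hpc := Finset.card_erase_of_mem hp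
        have h4 := base_blue (R := R.erase p) (B := B)
          (Finset.disjoint_of_subset_left (Finset.erase_subset _ _) hd)
          (hg.mono (Finset.union_subset_union_left (Finset.erase_subset _ _))) (by omega)
        have h5 := Wst.of_erase_red hp h4
        exact hW (h5.mono subset_rfl subset_rfl (by omega))
      have hij : 3 * j + 2 ≤ i := by
        have hij0 : j ≤ i := by omega
        have hij1 : i % 4 = j % 4 := by omega
        obtain ⟨t, ht⟩ := exists_t hij0 hij1
        have hq : 14 * j < 4 * i + 3 := by omega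
        have ht2 : 10 * j < 16 * t + 3 := by omega
        have ht3 : j + 1 ≤ 2 * t := by omega
        omega
      have e1 : n - i = i + 5 := by omega
      have e2 : n - (i + 4) = i + 1 := by omega
      rcases key i j m (by omega) (by omega) (by omega) hm (by omega) (by omega) with hs | hs
      · rcases key (i + 4) j (m + 1) (by omega) (by omega) (by omega) (by omega) (by omega)
          (by omega) with hs' | hs'
        · have h1 := rev u₀ hu₀ (i + 4) (by omega)
          rw [e2] at h1
          have h2 := hs' u₀ hu₀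
          have h3 := hs (-u₀) hu₀.neg
          have h4 := succ (-u₀) hu₀.neg i (by omega)
          omega
        · refine const_false (i := i) hg hRS (by omega) hu₀ ?_ ?_
          · have h2 := hs u₀ hu₀
            have h3 := sum u₀ hu₀ i (by omega)
            omega
          · intro u hu
            have h1 := rev (-u) hu.neg i (by omega)
            rw [e1, neg_neg] at h1
            have h2 := hs u hu
            have h2' := hs (-u) hu.neg
            have h3 := sum u hu i (by omega)
            have h4 := sum u hu (i + 5) (by omega)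
            have h5 := cnt_mono (S := R ∪ B) (C := R) (u := u) (i := i + 1) (j := i + 5)
              (by omega)
            omega
      · rcases key (i + 4) j (m + 1) (by omega) (by omega) (by omega) (by omega) (by omega)
          (by omega) with hs' | hs'
        · have h2 := hs u₀ hu₀
          have h3 := hs' u₀ hu₀
          have h4 := cnt_mono (S := R ∪ B) (C := B) (u := u₀) (i := i) (j := i + 4) (by omega)
          omega
        · refine const_false (i := i) hg hBS (by omega) hu₀ ?_ ?_
          · have := hs u₀ hu₀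
            omega
          · intro u hu
            have h1 := rev (-u) hu.neg (i + 4) (by omega)
            rw [e2, neg_neg] at h1
            have h2 := hs u hu
            have h3 := hs' (-u) hu.neg
            omega

/-- the main theorem: if `3 |B| - |R| = 7 x` then at most `x` points stay uncovered -/
theorem core (hd : Disjoint R B) (hg : GenPos (R ∪ B)) (hx : 3 * B.card = R.card + 7 * x)
    (h3 : 3 * x ≤ R.card + B.card) : Wst R B x := by
  have h : ∀ n, IHyp n := by
    intro n
    induction n with
    | zero =>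
      intro R B x _ _ hc
      omega
    | succ n ih =>
      intro R B x hd hg hc hx h3
      rcases Nat.lt_succ_iff_lt_or_eq.1 hc with h1 | h1
      · exact ih R B x hd hg h1 hx h3
      · exact step ih hd hg h1 hx (by omega)
  exact h (R.card + B.card + 1) R B x hd hg (by omega) hx h3

end Pool.Agent.MP_d4f14f_co
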