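import Pool.Agent.Lib.MP_d4f14f_co.Ind

/-!
# MP_d4f14f_co: the bound for all `|B| ≤ |R| ≤ 3 |B|`
-/

noncomputable section

open scoped Classical

namespace Pool.Agent.MP_d4f14f_co

variable {R B : Finset Pt}

theorem remove (hd : Disjoint R B) (hg : GenPos (R ∪ B)) (a c x : ℕ) (ha : a ≤ R.card)
    (hc : c ≤ B.card) (hx : 3 * (B.card - c) = (R.card - a) + 7 * x)
    (h3 : 3 * x ≤ (R.card - a) + (B.card - c)) : Wst R B (x + a + c) := by
  obtain ⟨R', hR', hR'c⟩ := Finset.exists_subset_card_eq (show R.card - a ≤ R.card by omega)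
  obtain ⟨B', hB', hB'c⟩ := Finset.exists_subset_card_eq (show B.card - c ≤ B.card by omega)
  have h1 := core (R := R') (B := B') (x := x)
    (Finset.disjoint_of_subset_left hR' (Finset.disjoint_of_subset_right hB' hd))
    (hg.mono (Finset.union_subset_union hR' hB')) (by omega) (by omega)
  exact h1.mono hR' hB' (by omega)

theorem bound (hd : Disjoint R B) (hg : GenPos (R ∪ B)) (h1 : B.card ≤ R.card)
    (h2 : R.card ≤ 3 * B.card) : ∃ k, Wst R B k ∧ 7 * k + R.card ≤ 3 * B.card + 24 := by
  obtain ⟨x, e, hx, he⟩ : ∃ x e, 3 * B.card = R.card + 7 * x + e ∧ e < 7 :=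
    ⟨(3 * B.card - R.card) / 7, (3 * B.card - R.card) % 7, by omega, by omega⟩
  interval_cases e
  · exact ⟨_, remove hd hg 0 0 x (by omega) (by omega) (by omega) (by omega), by omega⟩
  · have hr : 2 ≤ R.card := by
      by_contra hc
      have hb : B.card = 0 ∨ B.card = 1 := by omega
      rcases hb with hb | hb <;> omega
    exact ⟨_, remove hd hg 2 1 x hr (by omega) (by omega) (by omega), by omega⟩
  · exact ⟨_, remove hd hg 1 1 x (by omega) (by omega) (by omega) (by omega), by omega⟩
  · exact ⟨_, remove hd hg 0 1 x (by omega) (by omega) (by omega) (by omega), by omega⟩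
  · exact ⟨_, remove hd hg 2 2 x (by omega) (by omega) (by omega) (by omega), by omega⟩
  · exact ⟨_, remove hd hg 1 2 x (by omega) (by omega) (by omega) (by omega), by omega⟩
  · exact ⟨_, remove hd hg 0 2 x (by omega) (by omega) (by omega) (by omega), by omega⟩

end Pool.Agent.MP_d4f14f_co
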